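import Pool.Agent.P.MP_d483fb_an.Z.Jet.Taylor

/-!
A finite atlas of uniformly bi-Lipschitz charts on a compact manifold.
-/

open Set Metric MvPolynomial Filter
open scoped Topology ContDiff Nat Manifold

noncomputable section

namespace Pool.Agent.P.MP_d483fb_an.Z.Jet

variable {D : ℕ} {M : Type} [MetricSpace M]

/-- `f` is bi-Lipschitz with constant `K` on `Q` -/
def BiL (f : M → Fin D → ℝ) (K : ℝ) (Q : Set M) : Prop :=
  ∀ z ∈ Q, ∀ z' ∈ Q, ‖f z - f z'‖ ≤ K * dist z z' ∧ dist z z' ≤ K * ‖f z - f z'‖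

theorem BiL.mono {f : M → Fin D → ℝ} {K K' : ℝ} {Q Q' : Set M} (h : BiL f K Q) (hK : K ≤ K')
    (hQ : Q' ⊆ Q) : BiL f K' Q' := fun z hz z' hz' =>
  ⟨(h z (hQ hz) z' (hQ hz')).1.trans (mul_le_mul_of_nonneg_right hK dist_nonneg),
    (h z (hQ hz) z' (hQ hz')).2.trans (mul_le_mul_of_nonneg_right hK (norm_nonneg _))⟩

/-- finitely many charts of a family `ψ`, with a uniform scale -/
structure Atl [MeasurableSpace M] (ψ : M → OpenPartialHomeomorph M (Fin D → ℝ)) where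
  j : M → M
  Q : M → Set M
  δ : ℝ
  K : ℝ
  δ_pos : 0 < δ
  one_le : 1 ≤ K
  fin : (range j).Finite
  meas : ∀ i, MeasurableSet (j ⁻¹' {i})
  cpt : ∀ p, IsCompact (Q (j p))
  sub : ∀ p, Q (j p) ⊆ (ψ (j p)).source
  ball_sub : ∀ p, ball p δ ⊆ Q (j p)
  lip : ∀ p, BiL (ψ (j p)) K (Q (j p))
  onto : ∀ p v, ‖v‖ < δ → ∃ z ∈ Q (j p), ψ (j p) z = ψ (j p) p + v

theorem exists_atl [CompactSpace M] [MeasurableSpace M] [BorelSpace M]
    (ψ : M → OpenPartialHomeomorph M (Fin D → ℝ)) (hs : ∀ q, q ∈ (ψ q).source)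
    (hl : ∀ q, ∃ K, ∃ s ∈ 𝓝 q, BiL (ψ q) K s) : Nonempty (Atl ψ) := by
  classical
  have h1 : ∀ q, ∃ r K d : ℝ, 0 < r ∧ 0 < d ∧ closedBall q (2 * r) ⊆ (ψ q).source ∧
      BiL (ψ q) K (closedBall q (2 * r)) ∧
      ∀ p ∈ ball q r, ∀ v, ‖v‖ < d → ∃ z ∈ closedBall q (2 * r), ψ q z = ψ q p + v := by
    intro q
    obtain ⟨K, s, hs', hK⟩ := hl q
    obtain ⟨ρ, hρ, hb⟩ := nhds_basis_closedBall.mem_iff.1
      (inter_mem hs' ((ψ q).open_source.mem_nhds (hs q)))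
    have e : 2 * (ρ / 2) = ρ := by ring
    have hsub : ball q ρ ⊆ (ψ q).source := fun z hz => (hb (ball_subset_closedBall hz)).2
    have ho : IsOpen (ψ q '' ball q ρ) := (ψ q).isOpen_image_of_subset_source isOpen_ball hsub
    have hsub' : closedBall q (ρ / 2) ⊆ ball q ρ := closedBall_subset_ball (by linarith)
    have hc : IsCompact (ψ q '' closedBall q (ρ / 2)) :=
      isClosed_closedBall.isCompact.image_of_continuousOn
        ((ψ q).continuousOn.mono (hsub'.trans hsub))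
    obtain ⟨d, hd, hth⟩ := hc.exists_thickening_subset_open ho (image_mono hsub')
    refine ⟨ρ / 2, K, d, by linarith, hd, ?_, ?_, fun p hp v hv => ?_⟩
    · rw [e]; exact fun z hz => (hb hz).2
    · rw [e]; exact hK.mono le_rfl fun z hz => (hb hz).1
    · obtain ⟨z, hz, hz'⟩ := hth (mem_thickening_iff.2
        ⟨ψ q p, mem_image_of_mem _ (ball_subset_closedBall hp), show dist (ψ q p + v) _ < d by
          simpa using hv⟩)
      exact ⟨z, by rw [e]; exact ball_subset_closedBall hz, hz'⟩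
  choose r K d hr hd hsrc hK hon using h1
  obtain ⟨t, ht⟩ := isCompact_univ.elim_finite_subcover (fun q => ball q (r q))
    (fun _ => isOpen_ball) fun q _ => mem_iUnion.2 ⟨q, mem_ball_self (hr q)⟩
  obtain ⟨n, ⟨e⟩⟩ := Finite.exists_equiv_fin t
  have hex : ∀ p, ∃ k : ℕ, ∃ h : k < n, p ∈ ball (e.symm ⟨k, h⟩).1 (r (e.symm ⟨k, h⟩).1) := by
    intro p
    obtain ⟨q, hq, hp⟩ := mem_iUnion₂.1 (ht (mem_univ p))
    exact ⟨e ⟨q, hq⟩, (e ⟨q, hq⟩).2, by simpa using hp⟩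
  let j : M → M := fun p => (e.symm ⟨Nat.find (hex p), (Nat.find_spec (hex p)).1⟩).1
  have hj : ∀ p, p ∈ ball (j p) (r (j p)) := fun p => (Nat.find_spec (hex p)).2
  have hjt : ∀ p, j p ∈ t := fun p => (e.symm _).2
  have hm : Measurable fun p => Nat.find (hex p) := by
    refine measurable_find hex fun k => ?_
    by_cases hk : k < n
    · have : MeasurableSet (ball (e.symm ⟨k, hk⟩).1 (r (e.symm ⟨k, hk⟩).1)) := measurableSet_ball
      convert this using 1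
      ext p
      exact ⟨fun ⟨_, h⟩ => h, fun h => ⟨hk, h⟩⟩
    · simp [hk]
  obtain ⟨δ, hδ, hδ'⟩ : ∃ δ : ℝ, 0 < δ ∧ ∀ q ∈ t, δ ≤ min (r q) (d q) := by
    rcases t.eq_empty_or_nonempty with h0 | h0
    · exact ⟨1, one_pos, by simp [h0]⟩
    · obtain ⟨q, -, hq⟩ := t.exists_min_image (fun q => min (r q) (d q)) h0
      exact ⟨_, lt_min (hr q) (hd q), hq⟩
  obtain ⟨K0, hK0⟩ := (t.finite_toSet.image K).bddAbove
  refine ⟨⟨j, fun q => closedBall q (2 * r q), δ, max 1 K0, hδ, le_max_left _ _,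
    t.finite_toSet.subset ?_, fun i => ?_, fun p => isClosed_closedBall.isCompact,
    fun p => hsrc _, fun p z hz => ?_, fun p => (hK _).mono ?_ subset_rfl, fun p v hv => ?_⟩⟩
  · rintro _ ⟨p, rfl⟩
    exact hjt p
  · have : j ⁻¹' {i} = (fun p => Nat.find (hex p)) ⁻¹'
        {k | ∃ h : k < n, (e.symm ⟨k, h⟩).1 = i} := by
      ext p
      exact ⟨fun h => ⟨_, h⟩, fun ⟨_, h⟩ => h⟩
    rw [this]
    exact hm (MeasurableSet.of_discrete)
  · have h1 := mem_ball.1 (hj p)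
    have h2 := mem_ball.1 hz
    have h3 := (hδ' _ (hjt p)).trans (min_le_left _ _)
    exact mem_closedBall.2 (by linarith [dist_triangle z p (j p)])
  · exact (hK0 (mem_image_of_mem _ (hjt p))).trans (le_max_right _ _)
  · exact hon _ p (hj p) v (hv.trans_le ((hδ' _ (hjt p)).trans (min_le_right _ _)))

section mfd
variable [ChartedSpace (EuclideanSpace ℝ (Fin D)) M]

/-- the standard charts with values in `Fin D → ℝ` -/
def stdc (q : M) : OpenPartialHomeomorph M (Fin D → ℝ) :=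
  (chartAt (EuclideanSpace ℝ (Fin D)) q).transHomeomorph (EuclideanSpace.equiv (Fin D) ℝ).toHomeomorph

theorem stdc_mem (q : M) : q ∈ (stdc (D := D) q).source := mem_chart_source _ q

theorem stdc_biL [IsManifold (𝓡 D) ∞ M] {N : ℕ} {ι : M → EuclideanSpace ℝ (Fin N)}
    (hι : ContMDiff (𝓡 D) (𝓡 N) ∞ ι) (hd : ∀ p q, dist p q = ‖ι p - ι q‖)
    (himm : ∀ p, Function.Injective (mfderiv (𝓡 D) (𝓡 N) ι p)) (q : M) :
    ∃ K, ∃ s ∈ 𝓝 q, BiL (stdc (D := D) q) K s := by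
  set c := chartAt (EuclideanSpace ℝ (Fin D)) q with hc
  have h1 : ContDiffAt ℝ ∞ (ι ∘ c.symm) (c q) := by
    have := (contMDiffAt_iff.1 (hι q)).2
    simpa [contDiffWithinAt_univ] using this
  have h2 : mfderiv (𝓡 D) (𝓡 N) ι q = fderiv ℝ (ι ∘ c.symm) (c q) := by
    rw [((hι q).mdifferentiableAt (by simp)).mfderiv]
    simp [writtenInExtChartAt, hc]
  have h3 := h1.hasStrictFDerivAt (by simp)
  set F' := fderiv ℝ (ι ∘ c.symm) (c q) with hF'
  have hinj : Function.Injective F' := by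
    have := himm q
    rw [h2] at this
    exact this
  obtain ⟨κ, hκ, hanti⟩ := (F' : EuclideanSpace ℝ (Fin D) →ₗ[ℝ] EuclideanSpace ℝ (Fin N)).exists_antilipschitzWith
    (LinearMap.ker_eq_bot.2 hinj)
  obtain ⟨s, hs, happ⟩ := h3.approximates_deriv_on_nhds (c := (2 * κ)⁻¹) (Or.inr (by positivity))
  set e := EuclideanSpace.equiv (Fin D) ℝ with he
  have hκ' : (0 : ℝ) < κ := hκ
  refine ⟨‖e.toContinuousLinearMap‖ * (2 * κ) + (‖F'‖ + (2 * κ : ℝ)⁻¹) * ‖e.symm.toContinuousLinearMap‖,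
    c.source ∩ c ⁻¹' s, inter_mem (chart_source_mem_nhds _ q)
      ((c.continuousAt (mem_chart_source _ q)).preimage_mem_nhds hs), fun z hz z' hz' => ?_⟩
  have a1 := happ _ hz.2 _ hz'.2
  simp only [Function.comp_apply, c.left_inv hz.1, c.left_inv hz'.1] at a1
  have a2 : ‖c z - c z'‖ ≤ κ * ‖F' (c z - c z')‖ := by
    simpa [dist_eq_norm] using hanti.le_mul_dist (c z) (c z')
  have a3 := F'.le_opNorm (c z - c z')
  have a4 : stdc (D := D) q z - stdc (D := D) q z' = e (c z - c z') := by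
    rw [map_sub]; rfl
  have a5 := e.toContinuousLinearMap.le_opNorm (c z - c z')
  have a6 := e.symm.toContinuousLinearMap.le_opNorm (e (c z - c z'))
  simp only [ContinuousLinearEquiv.coe_coe, ContinuousLinearEquiv.symm_apply_apply] at a5 a6
  have a7 := norm_sub_norm_le (F' (c z - c z')) (ι z - ι z')
  have a8 := norm_sub_norm_le (ι z - ι z') (F' (c z - c z'))
  rw [norm_sub_rev (F' _)] at a7
  rw [a4, hd]
  push_cast at a1
  have a9 : κ * ((2 * κ : ℝ)⁻¹ * ‖c z - c z'‖) = ‖c z - c z'‖ / 2 := by field_simp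
  have b1 : ‖c z - c z'‖ ≤ 2 * κ * ‖ι z - ι z'‖ := by
    have := mul_le_mul_of_nonneg_left (a7.trans a1) hκ'.le
    rw [a9, mul_sub] at this
    linarith
  have b2 : ‖ι z - ι z'‖ ≤ (‖F'‖ + (2 * κ : ℝ)⁻¹) * ‖c z - c z'‖ := by linarith
  have p1 : 0 ≤ (‖F'‖ + (2 * κ : ℝ)⁻¹) := by positivity
  constructor
  · refine a5.trans ((mul_le_mul_of_nonneg_left b1 (norm_nonneg _)).trans ?_)
    rw [add_mul, mul_assoc _ (2 * κ : ℝ)]
    exact le_add_of_nonneg_right (by positivity)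
  · refine b2.trans ((mul_le_mul_of_nonneg_left a6 p1).trans ?_)
    rw [add_mul _ _ ‖e (c z - c z')‖, mul_assoc (‖F'‖ + (2 * κ : ℝ)⁻¹)]
    exact le_add_of_nonneg_left (by positivity)

end mfd

/-- smooth in the charts `ψ` -/
def Smo (ψ : M → OpenPartialHomeomorph M (Fin D → ℝ)) (f : M → M) : Prop :=
  Continuous f ∧ ∀ x y, ContDiffOn ℝ ∞ (ψ y ∘ f ∘ (ψ x).symm)
    ((ψ x).target ∩ (ψ x).symm ⁻¹' (f ⁻¹' (ψ y).source))

theorem smo_stdc [ChartedSpace (EuclideanSpace ℝ (Fin D)) M] [IsManifold (𝓡 D) ∞ M] {f : M → M}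
    (hf : ContMDiff (𝓡 D) (𝓡 D) ∞ f) : Smo (stdc (D := D)) f := by
  refine ⟨hf.continuous, fun x y => ?_⟩
  have h := (contMDiff_iff.1 hf).2 x y
  set e := EuclideanSpace.equiv (Fin D) ℝ
  refine (e.contDiff.comp_contDiffOn (h.comp e.symm.contDiff.contDiffOn ?_)).congr fun _ _ => rfl
  intro u hu
  have : e.symm u ∈ (chartAt (EuclideanSpace ℝ (Fin D)) x).target ∧
      f ((chartAt (EuclideanSpace ℝ (Fin D)) x).symm (e.symm u)) ∈
        (chartAt (EuclideanSpace ℝ (Fin D)) y).source := hu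
  simpa using this

end Pool.Agent.P.MP_d483fb_an.Z.Jet
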