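import Pool.Agent.P.MP_d483fb_an.Z.Jet.Atlas

/-!
Jets of one smooth map in a finite atlas.
-/

open Set Metric MvPolynomial Filter
open scoped Topology ContDiff Nat Manifold

noncomputable section

namespace Pool.Agent.P.MP_d483fb_an.Z.Jet

variable {D : ℕ} {M : Type} [MetricSpace M]

theorem measurable_of_cover {X Y ι : Type} [TopologicalSpace X] [MeasurableSpace X]
    [OpensMeasurableSpace X] [TopologicalSpace Y] [MeasurableSpace Y] [BorelSpace Y] [Countable ι]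
    {F : X → Y} (s : ι → Set X) (hs : ∀ i, MeasurableSet (s i)) (hc : ∀ x, ∃ i, x ∈ s i)
    (hF : ∀ i, ContinuousOn F (s i)) : Measurable F := by
  refine measurable_of_isOpen fun U hU => ?_
  have : F ⁻¹' U = ⋃ i, F ⁻¹' U ∩ s i := by
    ext x
    simp only [mem_iUnion, mem_inter_iff]
    exact ⟨fun h => (hc x).imp fun _ hi => ⟨h, hi⟩, fun ⟨_, h, _⟩ => h⟩
  rw [this]
  refine MeasurableSet.iUnion fun i => ?_
  obtain ⟨V, hV, e⟩ := continuousOn_iff'.1 (hF i) U hU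
  rw [e]
  exact hV.measurableSet.inter (hs i)

/-- a coordinate of `f` in two charts -/
def loc (ψ : M → OpenPartialHomeomorph M (Fin D → ℝ)) (f : M → M) (x y : M) (l : Fin D)
    (u : Fin D → ℝ) : ℝ := ψ y (f ((ψ x).symm u)) l

/-- the domain of `loc` -/
def dom (ψ : M → OpenPartialHomeomorph M (Fin D → ℝ)) (f : M → M) (x y : M) : Set (Fin D → ℝ) :=
  (ψ x).target ∩ (ψ x).symm ⁻¹' (f ⁻¹' (ψ y).source)

variable {ψ : M → OpenPartialHomeomorph M (Fin D → ℝ)} {f : M → M}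

theorem Smo.isOpen_dom (hf : Smo ψ f) (x y : M) : IsOpen (dom ψ f x y) :=
  (ψ x).symm.isOpen_inter_preimage ((ψ y).open_source.preimage hf.1)

theorem Smo.loc (hf : Smo ψ f) (x y : M) (l : Fin D) :
    ContDiffOn ℝ ∞ (loc ψ f x y l) (dom ψ f x y) :=
  contDiffOn_pi.1 (hf.2 x y) l

theorem mem_dom {x y z : M} (hz : z ∈ (ψ x).source) (hz' : f z ∈ (ψ y).source) :
    ψ x z ∈ dom ψ f x y :=
  ⟨(ψ x).map_source hz, by simpa [(ψ x).left_inv hz] using hz'⟩

theorem Smo.bound (hf : Smo ψ f) {x y : M} {Q Q' : Set M} (hQ : IsCompact Q) (hQ' : IsCompact Q')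
    (h1 : Q ⊆ (ψ x).source) (h2 : Q' ⊆ (ψ y).source) (k : ℕ) (l : Fin D) :
    ∃ C, ∀ z ∈ Q, f z ∈ Q' → ‖iteratedFDeriv ℝ k (Jet.loc ψ f x y l) (ψ x z)‖ ≤ C := by
  have hU := hf.isOpen_dom x y
  have h3 : ContinuousOn (iteratedFDeriv ℝ k (Jet.loc ψ f x y l)) (dom ψ f x y) :=
    ((hf.loc x y l).continuousOn_iteratedFDerivWithin (by exact_mod_cast le_top)
      hU.uniqueDiffOn).congr fun x hx => (iteratedFDerivWithin_of_isOpen k hU hx).symm
  have h4 : IsCompact (Q ∩ f ⁻¹' Q') := hQ.inter_right (hQ'.isClosed.preimage hf.1)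
  obtain ⟨C, hC⟩ := h4.exists_bound_of_continuousOn
    (h3.comp ((ψ x).continuousOn.mono fun z hz => h1 hz.1) fun z hz => mem_dom (h1 hz.1) (h2 hz.2))
  exact ⟨C, fun z hz hz' => hC z ⟨hz, hz'⟩⟩

variable [MeasurableSpace M] (A : Atl ψ)

namespace Atl

theorem mem_Q (p : M) : p ∈ A.Q (A.j p) := A.ball_sub p (mem_ball_self A.δ_pos)

theorem K_pos : 0 < A.K := one_pos.trans_le A.one_le

theorem bound (hf : Smo ψ f) (r : ℕ) : ∃ C, 0 ≤ C ∧ ∀ p q, ∀ k ≤ r, ∀ l, ∀ z ∈ A.Q (A.j p),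
    f z ∈ A.Q (A.j q) → ‖iteratedFDeriv ℝ k (loc ψ f (A.j p) (A.j q) l) (ψ (A.j p) z)‖ ≤ C := by
  have := A.fin.to_subtype
  have h : ∀ a : range A.j × range A.j × Fin (r + 1) × Fin D, ∃ C, ∀ z ∈ A.Q a.1, f z ∈ A.Q a.2.1 →
      ‖iteratedFDeriv ℝ a.2.2.1 (loc ψ f a.1 a.2.1 a.2.2.2) (ψ a.1 z)‖ ≤ C := by
    rintro ⟨⟨_, p, rfl⟩, ⟨_, q, rfl⟩, k, l⟩
    exact hf.bound (A.cpt p) (A.cpt q) (A.sub p) (A.sub q) k l
  choose C hC using h
  obtain ⟨B, hB⟩ := (finite_range C).bddAbove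
  refine ⟨max B 0, le_max_right _ _, fun p q k hk l z hz hz' => ?_⟩
  exact (hC (⟨_, p, rfl⟩, ⟨_, q, rfl⟩, ⟨k, by omega⟩, l) z hz hz').trans
    ((hB (mem_range_self _)).trans (le_max_left _ _))

/-- the raw centred chart -/
def c0 (p z : M) : Fin D → ℝ := ψ (A.j p) z - ψ (A.j p) p

theorem c0_self (p : M) : A.c0 p p = 0 := sub_self _

theorem c0_sub (p z z' : M) : A.c0 p z - A.c0 p z' = ψ (A.j p) z - ψ (A.j p) z' := by
  simp [c0]

theorem norm_c0_le {p z : M} (h : dist z p < A.δ) : ‖A.c0 p z‖ ≤ A.K * dist z p :=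
  (A.lip p z (A.ball_sub p h) p (A.mem_Q p)).1

/-- the raw jet of `f` at `p` in the chart centred at `q` -/
def T0 (r : ℕ) (f : M → M) (p q : M) (l : Fin D) : MvPolynomial (Fin D) ℝ :=
  tay r (loc ψ f (A.j p) (A.j q) l) (ψ (A.j p) p) - C (ψ (A.j q) q l)

theorem coeff_T0_of_le {r : ℕ} (hr : 0 < r) (f : M → M) (p q : M) (l : Fin D) {m : Fin D →₀ ℕ}
    (hm : r ≤ m.degree) : coeff m (A.T0 r f p q l) = 0 := by
  classical
  rw [T0, coeff_sub, coeff_tay_of_le _ _ hm, coeff_C, if_neg, sub_zero]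
  rintro rfl
  simp at hm
  omega

theorem coeff_zero_T0 {r : ℕ} (hr : 0 < r) (f : M → M) (p q : M) (l : Fin D) :
    coeff 0 (A.T0 r f p q l) = A.c0 q (f p) l := by
  rw [T0, coeff_sub, coeff_zero_tay hr, coeff_zero_C, loc, (ψ _).left_inv (A.sub p (A.mem_Q p))]
  rfl

theorem coeff_T0_of_ne (r : ℕ) (f : M → M) (p q : M) (l : Fin D) {m : Fin D →₀ ℕ} (hm : m ≠ 0) :
    coeff m (A.T0 r f p q l) = coeff m (tay r (loc ψ f (A.j p) (A.j q) l) (ψ (A.j p) p)) := by
  classical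
  rw [T0, coeff_sub, coeff_C, if_neg hm.symm, sub_zero]

/-- uniform Taylor estimate -/
theorem jet_core [CompactSpace M] (hf : Smo ψ f) (r : ℕ) : ∃ C η : ℝ, 0 ≤ C ∧ 0 < η ∧ η ≤ A.δ ∧
    ∀ p q, dist (f p) q < A.δ / 2 → ∀ l,
      (∀ m, m ≠ 0 → |coeff m (A.T0 r f p q l)| ≤ C) ∧
      ∀ z, dist z p < η → dist (f z) q < A.δ ∧
        |A.c0 q (f z) l - eval (A.c0 p z) (A.T0 r f p q l)| ≤ C * ‖A.c0 p z‖ ^ r := by
  obtain ⟨C, hC, hb⟩ := A.bound hf r
  obtain ⟨ρ, hρ, hu⟩ := Metric.uniformContinuous_iff.1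
    (CompactSpace.uniformContinuous_of_continuous hf.1) (A.δ / 2) (half_pos A.δ_pos)
  have hK := A.K_pos
  have hK1 := A.one_le
  have hδ := A.δ_pos
  set η := min ρ A.δ / (A.K * A.K) with hη
  have hKK : 1 ≤ A.K * A.K := one_le_mul_of_one_le_of_one_le hK1 hK1
  have hη0 : 0 < η := div_pos (lt_min hρ hδ) (by positivity)
  have hη1 : A.K * A.K * η = min ρ A.δ := by rw [hη]; field_simp
  have hη2 : η ≤ min ρ A.δ := hη1 ▸ le_mul_of_one_le_left hη0.le hKK
  have hCC : C ≤ (r * (D + 1) ^ r + 1) * C :=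
    le_mul_of_one_le_left hC (le_add_of_nonneg_left (by positivity))
  refine ⟨(r * (D + 1) ^ r + 1) * C, η, by positivity, hη0, hη2.trans (min_le_right _ _),
    fun p q hpq l => ⟨fun m hm => ?_, fun z hz => ?_⟩⟩
  · rw [A.coeff_T0_of_ne r f p q l hm]
    refine (abs_coeff_tay_le (fun k hk => hb p q k hk.le l p (A.mem_Q p)
      (A.ball_sub q (hpq.trans (half_lt_self hδ)))) hC m).trans ?_
    rw [add_mul, one_mul]
    exact le_add_of_nonneg_right hC
  have near : ∀ w, dist w p < ρ → dist (f w) q < A.δ := fun w hw => by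
    linarith [dist_triangle (f w) (f p) q, hu hw]
  have hzδ : dist z p < A.δ := hz.trans_le (hη2.trans (min_le_right _ _))
  have hv : ‖A.c0 p z‖ < A.K * η := (A.norm_c0_le hzδ).trans_lt (mul_lt_mul_of_pos_left hz hK)
  have seg : ∀ t ∈ Icc (0 : ℝ) 1, ∃ w ∈ A.Q (A.j p), f w ∈ A.Q (A.j q) ∧
      ψ (A.j p) w = ψ (A.j p) p + t • A.c0 p z := by
    intro t ht
    have h1 : ‖t • A.c0 p z‖ < A.K * η := by
      rw [norm_smul, Real.norm_of_nonneg ht.1]
      exact (mul_le_of_le_one_left (norm_nonneg _) ht.2).trans_lt hv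
    have h2 : A.K * η ≤ A.K * A.K * η := by
      rw [mul_assoc]; exact le_mul_of_one_le_left (by positivity) hK1
    obtain ⟨w, hw, e⟩ := A.onto p _ (h1.trans_le (h2.trans (hη1.le.trans (min_le_right _ _))))
    refine ⟨w, hw, A.ball_sub q (near w ?_), e⟩
    have h3 := (A.lip p w hw p (A.mem_Q p)).2
    rw [e, add_sub_cancel_left] at h3
    refine h3.trans_lt ((mul_lt_mul_of_pos_left h1 hK).trans_le ?_)
    rw [← mul_assoc, hη1]
    exact min_le_left _ _
  refine ⟨near z (hz.trans_le (hη2.trans (min_le_left _ _))), ?_⟩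
  have key := abs_sub_tay_le (r := r) (g := loc ψ f (A.j p) (A.j q) l) (x := ψ (A.j p) p)
    (v := A.c0 p z) (C := C) (fun t ht => by
      obtain ⟨w, hw, hw', e⟩ := seg t ht
      rw [← e]
      exact (hf.loc _ _ l).contDiffAt
        ((hf.isOpen_dom _ _).mem_nhds (mem_dom (A.sub p hw) (A.sub q hw')))) (fun t ht => by
      obtain ⟨w, hw, hw', e⟩ := seg t ht
      rw [← e]
      exact hb p q r le_rfl l w hw hw')
  have e1 : ψ (A.j p) p + A.c0 p z = ψ (A.j p) z := by simp [c0]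
  rw [e1, loc, (ψ _).left_inv (A.sub p (A.ball_sub p hzδ))] at key
  refine le_trans (le_of_eq ?_) (key.trans (mul_le_mul_of_nonneg_right hCC (by positivity)))
  congr 1
  simp only [T0, map_sub, eval_C, c0, Pi.sub_apply]
  ring

include A in
/-- smooth maps are Lipschitz -/
theorem lipschitz [CompactSpace M] (hf : Smo ψ f) :
    ∃ L : ℝ, 1 ≤ L ∧ ∀ z p, dist (f z) (f p) ≤ L * dist z p := by
  obtain ⟨C, η, hC, hη, hηδ, h⟩ := A.jet_core hf 1
  obtain ⟨R, hR⟩ := Metric.isBounded_iff.1 (isCompact_univ (X := M)).isBounded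
  have hK := A.K_pos
  refine ⟨1 + A.K * C * A.K + |R| / η, le_add_of_le_of_nonneg (le_add_of_nonneg_right
    (by positivity)) (by positivity), fun z p => ?_⟩
  have hd : 0 ≤ dist z p := dist_nonneg
  rw [add_mul, add_mul]
  by_cases hz : dist z p < η
  · have h0 : dist (f p) (f p) < A.δ / 2 := by simpa using A.δ_pos
    have h1 : ‖A.c0 (f p) (f z)‖ ≤ C * ‖A.c0 p z‖ := by
      refine (pi_norm_le_iff_of_nonneg (by positivity)).2 fun l => ?_
      have h2 := ((h p (f p) h0 l).2 z hz).2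
      have h3 : A.T0 1 f p (f p) l = 0 := by
        ext m
        by_cases hm : m = 0
        · rw [hm, A.coeff_zero_T0 one_pos, A.c0_self]; simp
        · exact A.coeff_T0_of_le one_pos _ _ _ _
            (Nat.one_le_iff_ne_zero.2 fun e => hm ((Finsupp.degree_eq_zero_iff m).1 e))
      simpa [h3] using h2
    by_cases hD : D = 0
    · subst hD
      have h5 := (A.lip p z (A.ball_sub p (hz.trans_le hηδ)) p (A.mem_Q p)).2
      rw [Subsingleton.elim (ψ (A.j p) z - ψ (A.j p) p) 0, norm_zero, mul_zero] at h5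
      rw [dist_le_zero.1 h5]
      simp
    have h4 := ((h p (f p) h0 ⟨0, by omega⟩).2 z hz).1
    have h5 := (A.lip (f p) (f z) (A.ball_sub _ h4) (f p) (A.mem_Q _)).2
    have h6 := A.norm_c0_le (hz.trans_le hηδ)
    have h7 : dist (f z) (f p) ≤ A.K * C * A.K * dist z p :=
      calc _ ≤ A.K * (C * (A.K * dist z p)) := h5.trans (mul_le_mul_of_nonneg_left
            (h1.trans (mul_le_mul_of_nonneg_left h6 hC)) hK.le)
        _ = _ := by ring
    have : 0 ≤ |R| / η * dist z p := by positivity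
    linarith
  · have h1 : dist (f z) (f p) ≤ |R| / η * dist z p := by
      refine (hR (mem_univ _) (mem_univ _)).trans ((le_abs_self R).trans ?_)
      rw [div_mul_eq_mul_div, le_div_iff₀ hη]
      exact mul_le_mul_of_nonneg_left (not_lt.1 hz) (abs_nonneg R)
    have : 0 ≤ A.K * C * A.K * dist z p := by positivity
    linarith

end Atl

end Pool.Agent.P.MP_d483fb_an.Z.Jet
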