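import Pool.Agent.P.MP_d483fb_an.Z.Jet.Word

/-!
Coefficients of a polynomial are controlled by its values on a ball; measurability of charts and
jets.
-/

open Set Metric MvPolynomial Filter
open scoped Topology ContDiff Nat Manifold

noncomputable section

namespace Pool.Agent.P.MP_d483fb_an.Z.Jet

variable {D : ℕ}

/-- all monomials have degree `< r` -/
def Low (r : ℕ) (P : MvPolynomial (Fin D) ℝ) : Prop := ∀ m, r ≤ m.degree → coeff m P = 0

/-- the exponents of degree `< r` -/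
def mons (D r : ℕ) : Finset (Fin D →₀ ℕ) := (Finsupp.finite_of_degree_lt r).toFinset

theorem mem_mons {r : ℕ} {m : Fin D →₀ ℕ} : m ∈ mons D r ↔ m.degree < r := by simp [mons]

theorem Low.eval_eq {r : ℕ} {P : MvPolynomial (Fin D) ℝ} (h : Low r P) (v : Fin D → ℝ) :
    eval v P = ∑ m ∈ mons D r, coeff m P * ∏ i, v i ^ m i := by
  rw [eval_eq']
  refine Finset.sum_subset (fun m hm => mem_mons.2 ?_) fun m _ hm => ?_
  · by_contra hn
    exact mem_support_iff.1 hm (h m (not_lt.1 hn))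
  · rw [notMem_support_iff.1 hm, zero_mul]

theorem Low.sub {r : ℕ} {P Q : MvPolynomial (Fin D) ℝ} (h : Low r P) (h' : Low r Q) :
    Low r (P - Q) := fun m hm => by rw [coeff_sub, h m hm, h' m hm, sub_zero]

theorem abs_mon_le (v : Fin D → ℝ) (m : Fin D →₀ ℕ) : |∏ i, v i ^ m i| ≤ ‖v‖ ^ m.degree := by
  rw [Finset.abs_prod, Finsupp.degree_eq_sum, ← Finset.prod_pow_eq_pow_sum]
  refine Finset.prod_le_prod (fun _ _ => abs_nonneg _) fun i _ => ?_
  rw [abs_pow]
  exact pow_le_pow_left₀ (abs_nonneg _) (norm_le_pi_norm v i) _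

theorem mon_smul (ρ : ℝ) (v : Fin D → ℝ) (m : Fin D →₀ ℕ) :
    ∏ i, (ρ • v) i ^ m i = ρ ^ m.degree * ∏ i, v i ^ m i := by
  rw [Finsupp.degree_eq_sum, ← Finset.prod_pow_eq_pow_sum, ← Finset.prod_mul_distrib]
  exact Finset.prod_congr rfl fun i _ => by simp [mul_pow]

theorem exists_coef_bound (D r : ℕ) : ∃ C : ℝ, 0 < C ∧ ∀ (a : (Fin D →₀ ℕ) → ℝ) (B : ℝ),
    (∀ v : Fin D → ℝ, ‖v‖ ≤ 1 → |∑ m ∈ mons D r, a m * ∏ i, v i ^ m i| ≤ B) →
      ∀ m ∈ mons D r, |a m| ≤ C * B := by
  classical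
  let b : mons D r → C(closedBall (0 : Fin D → ℝ) 1, ℝ) := fun m =>
    ⟨fun v => ∏ i, v.1 i ^ m.1 i, continuous_finsetProd _ fun i _ =>
      ((continuous_apply i).comp continuous_subtype_val).pow _⟩
  let Φ := Fintype.linearCombination ℝ b
  have hΦ : ∀ (a : (Fin D →₀ ℕ) → ℝ) v,
      Φ (fun m => a m) v = ∑ m ∈ mons D r, a m * ∏ i, v.1 i ^ m i := by
    intro a v
    rw [← Finset.sum_coe_sort (mons D r)]
    simp [Φ, Fintype.linearCombination_apply, b]
  have hker : LinearMap.ker Φ = ⊥ := by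
    refine LinearMap.ker_eq_bot'.2 fun a ha => ?_
    let a' : (Fin D →₀ ℕ) → ℝ := fun m => if h : m ∈ mons D r then a ⟨m, h⟩ else 0
    have e : a = fun m : mons D r => a' m := funext fun m => by simp [a', m.2]
    have h1 : (∑ m ∈ mons D r, monomial m (a' m) : MvPolynomial (Fin D) ℝ) = 0 := by
      refine funext_set (fun _ => Icc (-1) 1) (fun _ => Icc_infinite (by norm_num)) fun x hx => ?_
      have hx' : x ∈ closedBall (0 : Fin D → ℝ) 1 := by
        rw [mem_closedBall_zero_iff, pi_norm_le_iff_of_nonneg zero_le_one]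
        exact fun i => abs_le.2 (hx i trivial)
      have h2 := hΦ a' ⟨x, hx'⟩
      rw [← e, ha] at h2
      rw [map_sum, map_zero]
      refine Eq.trans (Finset.sum_congr rfl fun m _ => ?_) h2.symm
      rw [eval_monomial, Finsupp.prod_fintype _ _ (by simp)]
    funext m
    have h3 := congrArg (coeff m.1) h1
    simp only [coeff_sum, coeff_monomial, Finset.sum_ite_eq', m.2, if_true, coeff_zero] at h3
    rw [e]
    exact h3
  obtain ⟨κ, hκ, hanti⟩ := Φ.exists_antilipschitzWith hker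
  refine ⟨κ, hκ, fun a B h m hm => ?_⟩
  have hB : 0 ≤ B := (abs_nonneg _).trans (h 0 (by simp))
  have h1 : ‖Φ fun m => a m‖ ≤ B := (ContinuousMap.norm_le _ hB).2 fun v => by
    rw [hΦ]; exact h v.1 (mem_closedBall_zero_iff.1 v.2)
  have h2 := hanti.le_mul_dist (fun m => a m) 0
  rw [map_zero, dist_zero_right, dist_zero_right] at h2
  exact ((norm_le_pi_norm (fun m : mons D r => a m) ⟨m, hm⟩).trans h2).trans
    (mul_le_mul_of_nonneg_left h1 κ.2)

/-- the coefficients are bounded by the values on a ball -/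
theorem exists_coeff_le (D r : ℕ) : ∃ C : ℝ, 0 < C ∧ ∀ P : MvPolynomial (Fin D) ℝ, Low r P →
    ∀ ρ B : ℝ, 0 < ρ → (∀ v, ‖v‖ ≤ ρ → |eval v P| ≤ B) →
      ∀ m, |coeff m P| * ρ ^ m.degree ≤ C * B := by
  obtain ⟨C, hC, h⟩ := exists_coef_bound D r
  refine ⟨C, hC, fun P hP ρ B hρ hB m => ?_⟩
  have hB0 : 0 ≤ B := (abs_nonneg _).trans (hB 0 (by simpa using hρ.le))
  by_cases hm : m.degree < r
  · have := h (fun m => coeff m P * ρ ^ m.degree) B (fun v hv => by
      have h1 := hB (ρ • v) (by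
        rw [norm_smul, Real.norm_of_nonneg hρ.le]
        exact mul_le_of_le_one_right hρ.le hv)
      rw [hP.eval_eq] at h1
      simpa only [mon_smul, mul_assoc] using h1) m (mem_mons.2 hm)
    rwa [abs_mul, abs_of_pos (pow_pos hρ _)] at this
  · rw [hP m (not_lt.1 hm), abs_zero, zero_mul]
    positivity

/-- uniqueness of jets -/
theorem Low.eq_zero {r : ℕ} {P : MvPolynomial (Fin D) ℝ} (hP : Low r P) {E ρ : ℝ} (hρ : 0 < ρ)
    (h : ∀ v, ‖v‖ < ρ → |eval v P| ≤ E * ‖v‖ ^ r) : P = 0 := by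
  obtain ⟨C, hC, hb⟩ := exists_coeff_le D r
  ext m
  rw [coeff_zero]
  by_cases hm : m.degree < r
  swap
  · exact hP m (not_lt.1 hm)
  have key : ∀ t : ℝ, 0 < t → t < min ρ 1 → |coeff m P| ≤ C * |E| * t := by
    intro t ht ht'
    have h1 := hb P hP t (|E| * t ^ r) ht (fun v hv => (h v (hv.trans_lt
      (ht'.trans_le (min_le_left _ _)))).trans ((mul_le_mul_of_nonneg_right (le_abs_self E)
        (by positivity)).trans (by gcongr))) m
    have h2 : t ^ r ≤ t * t ^ m.degree := by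
      rw [← pow_succ']
      exact pow_le_pow_of_le_one ht.le (ht'.trans_le (min_le_right _ _)).le hm
    refine le_of_mul_le_mul_right (h1.trans ?_) (pow_pos ht m.degree)
    rw [mul_assoc, mul_assoc]
    gcongr
  have h3 : Tendsto (fun t : ℝ => C * |E| * t) (𝓝[>] 0) (𝓝 0) := by
    have : Tendsto (fun t : ℝ => C * |E| * t) (𝓝 0) (𝓝 (C * |E| * 0)) :=
      (continuous_const.mul continuous_id).tendsto 0
    rw [mul_zero] at this
    exact this.mono_left nhdsWithin_le_nhds
  refine abs_nonpos_iff.1 (ge_of_tendsto h3 ?_)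
  filter_upwards [Ioo_mem_nhdsGT (lt_min hρ one_pos)] with t ht using key t ht.1 ht.2

/-- values are bounded by the coefficients -/
theorem Low.abs_eval_le {r : ℕ} {P : MvPolynomial (Fin D) ℝ} (hP : Low r P) {B : ℝ} {k : ℕ}
    (hB : ∀ m, |coeff m P| ≤ B) (hk : ∀ m, m.degree < k → coeff m P = 0) {v : Fin D → ℝ} {R : ℝ}
    (hR : 1 ≤ R) (hv : ‖v‖ ≤ R) : |eval v P| ≤ (mons D r).card * B * R ^ r * ‖v‖ ^ k := by
  have hB0 : 0 ≤ B := (abs_nonneg _).trans (hB 0)
  rw [hP.eval_eq, mul_assoc, mul_assoc, ← nsmul_eq_mul]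
  refine (Finset.abs_sum_le_sum_abs _ _).trans (Finset.sum_le_card_nsmul _ _ _ fun m hm => ?_)
  by_cases h : m.degree < k
  · rw [hk m h, zero_mul, abs_zero]
    positivity
  rw [abs_mul]
  refine mul_le_mul (hB m) ((abs_mon_le v m).trans ?_) (abs_nonneg _) hB0
  obtain ⟨j, hj⟩ := Nat.exists_eq_add_of_le' (not_lt.1 h)
  rw [hj, pow_add]
  refine mul_le_mul_of_nonneg_right ((pow_le_pow_left₀ (norm_nonneg _) hv j).trans
    (pow_le_pow_right₀ hR ?_)) (by positivity)
  have := mem_mons.1 hm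
  omega

variable {M : Type} [MetricSpace M] [MeasurableSpace M]
  {ψ : M → OpenPartialHomeomorph M (Fin D → ℝ)} (A : Atl ψ) {f : M → M}

namespace Atl

theorem low_T0 {r : ℕ} (hr : 0 < r) (f : M → M) (p q : M) (l : Fin D) : Low r (A.T0 r f p q l) :=
  fun _ hm => A.coeff_T0_of_le hr f p q l hm

open Classical in
/-- the centred chart, extended by zero -/
def c (p z : M) : Fin D → ℝ := if dist z p < A.δ then A.c0 p z else 0

theorem c_eq {p z : M} (h : dist z p < A.δ) : A.c p z = A.c0 p z := if_pos h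

theorem c_self (p : M) : A.c p p = 0 := by rw [A.c_eq (by simpa using A.δ_pos), c0_self]

theorem norm_c_le (p z : M) : ‖A.c p z‖ ≤ A.K * dist z p := by
  unfold c
  split_ifs with h
  · exact A.norm_c0_le h
  · rw [norm_zero]; exact mul_nonneg A.K_pos.le dist_nonneg

theorem norm_c_le' (p z : M) : ‖A.c p z‖ ≤ A.K * A.δ := by
  unfold c
  split_ifs with h
  · exact (A.norm_c0_le h).trans (mul_le_mul_of_nonneg_left h.le A.K_pos.le)
  · rw [norm_zero]; exact mul_nonneg A.K_pos.le A.δ_pos.le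

theorem c_biL (p : M) : BiL (A.c p) A.K (ball p A.δ) := fun z hz z' hz' => by
  rw [A.c_eq hz, A.c_eq hz', c0_sub]
  exact A.lip p z (A.ball_sub p hz) z' (A.ball_sub p hz')

theorem c_onto (p : M) {v : Fin D → ℝ} (hv : ‖v‖ < A.δ / A.K) :
    ∃ z, dist z p ≤ A.K * ‖v‖ ∧ dist z p < A.δ ∧ A.c p z = v := by
  have hK := A.K_pos
  obtain ⟨z, hz, e⟩ := A.onto p v (hv.trans_le (div_le_self A.δ_pos.le A.one_le))
  have h1 := (A.lip p z hz p (A.mem_Q p)).2
  rw [e, add_sub_cancel_left] at h1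
  have h2 : dist z p < A.δ := h1.trans_lt (by rwa [lt_div_iff₀' hK] at hv)
  exact ⟨z, h1, h2, by rw [A.c_eq h2, c0, e, add_sub_cancel_left]⟩

open Classical in
/-- the jet of `f` at `p` in the chart centred at `q`, extended by zero -/
def T (r : ℕ) (f : M → M) (p q : M) (l : Fin D) : MvPolynomial (Fin D) ℝ :=
  if dist (f p) q < A.δ / 2 then A.T0 r f p q l else 0

theorem T_eq (r : ℕ) {p q : M} (h : dist (f p) q < A.δ / 2) (l : Fin D) :
    A.T r f p q l = A.T0 r f p q l := if_pos h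

variable [BorelSpace M] [SecondCountableTopology M]

theorem measurable_c : Measurable fun x : M × M => A.c x.1 x.2 := by
  have := A.fin.to_subtype
  have ho : MeasurableSet {x : M × M | dist x.2 x.1 < A.δ} :=
    (isOpen_lt (by fun_prop) continuous_const).measurableSet
  refine measurable_of_cover (fun i : Option (range A.j) => match i with
    | none => {x : M × M | dist x.2 x.1 < A.δ}ᶜ
    | some i => {x : M × M | dist x.2 x.1 < A.δ} ∩ Prod.fst ⁻¹' (A.j ⁻¹' {i.1})) ?_ ?_ ?_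
  · rintro (_ | i)
    · exact ho.compl
    · exact ho.inter (measurable_fst (A.meas _))
  · intro x
    by_cases h : dist x.2 x.1 < A.δ
    · exact ⟨some ⟨_, x.1, rfl⟩, h, rfl⟩
    · exact ⟨none, h⟩
  · rintro (_ | ⟨i, hi⟩)
    · exact continuousOn_const.congr fun x hx => if_neg hx
    · refine ContinuousOn.congr (f := fun x => ψ i x.2 - ψ i x.1) ?_ ?_
      · refine ((ψ i).continuousOn.comp continuousOn_snd ?_).sub
          ((ψ i).continuousOn.comp continuousOn_fst ?_)
        · rintro x ⟨h1, rfl⟩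
          exact A.sub _ (A.ball_sub _ h1)
        · rintro x ⟨_, rfl⟩
          exact A.sub _ (A.mem_Q _)
      · rintro x ⟨h1, rfl⟩
        exact A.c_eq h1

theorem measurable_T (hf : Smo ψ f) (r : ℕ) (l : Fin D) (m : Fin D →₀ ℕ) :
    Measurable fun x : M × M => coeff m (A.T r f x.1 x.2 l) := by
  classical
  have := A.fin.to_subtype
  have hc := hf.1
  have ho : MeasurableSet {x : M × M | dist (f x.1) x.2 < A.δ / 2} :=
    (isOpen_lt (by fun_prop) continuous_const).measurableSet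
  refine measurable_of_cover (fun i : Option (range A.j × range A.j) => match i with
    | none => {x : M × M | dist (f x.1) x.2 < A.δ / 2}ᶜ
    | some i => {x : M × M | dist (f x.1) x.2 < A.δ / 2} ∩
        (Prod.fst ⁻¹' (A.j ⁻¹' {i.1.1}) ∩ Prod.snd ⁻¹' (A.j ⁻¹' {i.2.1}))) ?_ ?_ ?_
  · rintro (_ | i)
    · exact ho.compl
    · exact ho.inter ((measurable_fst (A.meas _)).inter (measurable_snd (A.meas _)))
  · intro x
    by_cases h : dist (f x.1) x.2 < A.δ / 2
    · exact ⟨some (⟨_, x.1, rfl⟩, ⟨_, x.2, rfl⟩), h, rfl, rfl⟩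
    · exact ⟨none, h⟩
  · rintro (_ | ⟨⟨i, hi⟩, ⟨i', hi'⟩⟩)
    · refine (continuousOn_const (c := 0)).congr fun x hx => ?_
      simp only [T]
      rw [if_neg (show ¬dist (f x.1) x.2 < A.δ / 2 from hx), coeff_zero]
    · refine ContinuousOn.congr (f := fun x => coeff m (tay r (loc ψ f i i' l) (ψ i x.1)) -
        if 0 = m then ψ i' x.2 l else 0) (ContinuousOn.sub ?_ ?_) ?_
      · refine (continuousOn_coeff_tay r (hf.isOpen_dom i i') (hf.loc i i' l) m).comp
          ((ψ i).continuousOn.comp continuousOn_fst ?_) ?_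
        · rintro x ⟨_, rfl, _⟩
          exact A.sub _ (A.mem_Q _)
        · rintro x ⟨h1, rfl, rfl⟩
          exact mem_dom (A.sub _ (A.mem_Q _))
            (A.sub _ (A.ball_sub _ (lt_trans h1 (half_lt_self A.δ_pos))))
      · split_ifs
        · refine (continuous_apply l).comp_continuousOn
            ((ψ i').continuousOn.comp continuousOn_snd ?_)
          rintro x ⟨_, _, rfl⟩
          exact A.sub _ (A.mem_Q _)
        · exact continuousOn_const
      · rintro x ⟨h1, rfl, rfl⟩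
        simp only
        rw [A.T_eq r h1, T0, coeff_sub, coeff_C]

end Atl

end Pool.Agent.P.MP_d483fb_an.Z.Jet
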