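import Mathlib

/-!
Taylor polynomials in several variables.
-/

open Set Metric MvPolynomial
open scoped Topology ContDiff Nat

noncomputable section

namespace Pool.Agent.P.MP_d483fb_an.Z.Jet

variable {D : ℕ}

/-- the exponent of the monomial attached to a word -/
def wexp {k : ℕ} (σ : Fin k → Fin D) : Fin D →₀ ℕ := ∑ i, Finsupp.single (σ i) 1

/-- the coefficient attached to a word -/
def wco (g : (Fin D → ℝ) → ℝ) (x : Fin D → ℝ) {k : ℕ} (σ : Fin k → Fin D) : ℝ :=
  (k ! : ℝ)⁻¹ * iteratedFDeriv ℝ k g x fun i => Pi.single (σ i) 1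

/-- the Taylor polynomial of degree `< r` of `g` at `x` -/
def tay (r : ℕ) (g : (Fin D → ℝ) → ℝ) (x : Fin D → ℝ) : MvPolynomial (Fin D) ℝ :=
  ∑ k ∈ Finset.range r, ∑ σ : Fin k → Fin D, monomial (wexp σ) (wco g x σ)

theorem degree_wexp {k : ℕ} (σ : Fin k → Fin D) : (wexp σ).degree = k := by
  simp [wexp, map_sum]

theorem prod_wexp {k : ℕ} (σ : Fin k → Fin D) (v : Fin D → ℝ) :
    ((wexp σ).prod fun i e => v i ^ e) = ∏ i, v (σ i) := by
  unfold wexp
  rw [← Finsupp.prod_finsetSum_index (by simp) (fun a b c => pow_add _ _ _)]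
  refine Finset.prod_congr rfl fun i _ => ?_
  simp

theorem iter_eq_sum (g : (Fin D → ℝ) → ℝ) (x v : Fin D → ℝ) (k : ℕ) :
    iteratedFDeriv ℝ k g x (fun _ => v) =
      ∑ σ : Fin k → Fin D, (∏ i, v (σ i)) * iteratedFDeriv ℝ k g x fun i => Pi.single (σ i) 1 := by
  have e : (fun _ : Fin k => v) = fun _ => ∑ j, v j • (Pi.single j (1 : ℝ) : Fin D → ℝ) := by
    funext _
    exact pi_eq_sum_univ' v
  rw [e, ContinuousMultilinearMap.map_sum]
  refine Finset.sum_congr rfl fun σ _ => ?_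
  rw [ContinuousMultilinearMap.map_smul_univ, smul_eq_mul]

theorem eval_tay (r : ℕ) (g : (Fin D → ℝ) → ℝ) (x v : Fin D → ℝ) :
    eval v (tay r g x) =
      ∑ k ∈ Finset.range r, (k ! : ℝ)⁻¹ * iteratedFDeriv ℝ k g x fun _ => v := by
  unfold tay
  rw [map_sum]
  refine Finset.sum_congr rfl fun k _ => ?_
  rw [map_sum, iter_eq_sum, Finset.mul_sum]
  refine Finset.sum_congr rfl fun σ _ => ?_
  rw [eval_monomial, prod_wexp, wco]
  ring

theorem coeff_tay (r : ℕ) (g : (Fin D → ℝ) → ℝ) (x : Fin D → ℝ) (m : Fin D →₀ ℕ) :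
    coeff m (tay r g x) =
      ∑ k ∈ Finset.range r, ∑ σ : Fin k → Fin D, if wexp σ = m then wco g x σ else 0 := by
  classical
  unfold tay
  simp only [coeff_sum, coeff_monomial]

theorem coeff_tay_of_le {r : ℕ} (g : (Fin D → ℝ) → ℝ) (x : Fin D → ℝ) {m : Fin D →₀ ℕ}
    (hm : r ≤ m.degree) : coeff m (tay r g x) = 0 := by
  rw [coeff_tay]
  refine Finset.sum_eq_zero fun k hk => Finset.sum_eq_zero fun σ _ => if_neg fun e => ?_
  have := degree_wexp σ
  rw [e] at this
  have := Finset.mem_range.1 hk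
  omega

theorem coeff_zero_tay {r : ℕ} (hr : 0 < r) (g : (Fin D → ℝ) → ℝ) (x : Fin D → ℝ) :
    coeff 0 (tay r g x) = g x := by
  have h1 : eval (0 : Fin D → ℝ) (tay r g x) = coeff 0 (tay r g x) := by
    rw [eval_zero]
    rfl
  rw [← h1, eval_tay]
  obtain ⟨r, rfl⟩ : ∃ s, r = s + 1 := ⟨r - 1, by omega⟩
  rw [Finset.sum_range_succ', Finset.sum_eq_zero]
  · simp
  · intro k _
    rw [ContinuousMultilinearMap.map_coord_zero _ (0 : Fin (k + 1)) rfl, mul_zero]

theorem abs_wco_le {g : (Fin D → ℝ) → ℝ} {x : Fin D → ℝ} {k : ℕ} (σ : Fin k → Fin D) :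
    |wco g x σ| ≤ ‖iteratedFDeriv ℝ k g x‖ := by
  rw [wco, abs_mul, abs_of_nonneg (by positivity)]
  have h1 : (k ! : ℝ)⁻¹ ≤ 1 := inv_le_one_of_one_le₀ (by exact_mod_cast Nat.factorial_pos k)
  refine (mul_le_of_le_one_left (abs_nonneg _) h1).trans ?_
  refine ((iteratedFDeriv ℝ k g x).le_opNorm _).trans (le_of_eq ?_)
  simp [Pi.norm_single]

theorem abs_coeff_tay_le {r : ℕ} {g : (Fin D → ℝ) → ℝ} {x : Fin D → ℝ} {C : ℝ}
    (h : ∀ k < r, ‖iteratedFDeriv ℝ k g x‖ ≤ C) (hC : 0 ≤ C) (m : Fin D →₀ ℕ) :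
    |coeff m (tay r g x)| ≤ r * (D + 1) ^ r * C := by
  rw [coeff_tay]
  refine (Finset.abs_sum_le_sum_abs _ _).trans ?_
  have : ∀ k ∈ Finset.range r,
      |∑ σ : Fin k → Fin D, if wexp σ = m then wco g x σ else 0| ≤ (D + 1) ^ r * C := by
    intro k hk
    have hk' := Finset.mem_range.1 hk
    refine (Finset.abs_sum_le_sum_abs _ _).trans ?_
    refine (Finset.sum_le_card_nsmul _ _ C fun σ _ => ?_).trans ?_
    · split_ifs
      · exact (abs_wco_le σ).trans (h k hk')
      · simpa using hC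
    · rw [Finset.card_univ, Fintype.card_fun, Fintype.card_fin, Fintype.card_fin, nsmul_eq_mul]
      refine mul_le_mul_of_nonneg_right ?_ hC
      push_cast
      exact (pow_le_pow_left₀ (by positivity) (by linarith) k).trans
        (pow_le_pow_right₀ (by linarith [(Nat.cast_nonneg D : (0 : ℝ) ≤ D)]) hk'.le)
  refine (Finset.sum_le_card_nsmul _ _ _ this).trans (le_of_eq ?_)
  rw [Finset.card_range, nsmul_eq_mul, mul_assoc]

/-- Taylor's estimate -/
theorem abs_sub_tay_le {r : ℕ} {g : (Fin D → ℝ) → ℝ} {x v : Fin D → ℝ} {C : ℝ}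
    (hg : ∀ t ∈ Icc (0 : ℝ) 1, ContDiffAt ℝ ∞ g (x + t • v))
    (h : ∀ t ∈ Icc (0 : ℝ) 1, ‖iteratedFDeriv ℝ r g (x + t • v)‖ ≤ C) :
    |g (x + v) - eval v (tay r g x)| ≤ C * ‖v‖ ^ r := by
  cases r with
  | zero =>
    have := h 1 ⟨zero_le_one, le_rfl⟩
    simpa [tay] using this
  | succ n =>
    have h1 := map_add_eq_sum_add_integral_iteratedFDeriv (n := n) (f := g) (x := x) (y := v)
      fun t ht => (hg t ht).of_le (by exact_mod_cast le_top)
    rw [eval_tay, h1]
    simp only [smul_eq_mul, add_sub_cancel_left]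
    have hC : 0 ≤ C := (norm_nonneg _).trans (h 0 ⟨le_rfl, zero_le_one⟩)
    have h2 := intervalIntegral.norm_integral_le_of_norm_le_const (a := 0) (b := 1)
      (C := C * ‖v‖ ^ (n + 1))
      (f := fun t : ℝ => (1 - t) ^ n * iteratedFDeriv ℝ (n + 1) g (x + t • v) fun _ => v) (by
        intro t ht
        rw [uIoc_of_le zero_le_one] at ht
        rw [norm_mul, norm_pow, Real.norm_of_nonneg (sub_nonneg.2 ht.2)]
        refine (mul_le_of_le_one_left (norm_nonneg _)
          (pow_le_one₀ (sub_nonneg.2 ht.2) (by linarith [ht.1]))).trans ?_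
        refine ((iteratedFDeriv ℝ (n + 1) g (x + t • v)).le_opNorm _).trans ?_
        rw [Finset.prod_const, Finset.card_univ, Fintype.card_fin]
        exact mul_le_mul_of_nonneg_right (h t ⟨ht.1.le, ht.2⟩) (by positivity))
    rw [abs_mul, abs_of_nonneg (by positivity)]
    have h3 : (n ! : ℝ)⁻¹ ≤ 1 := inv_le_one_of_one_le₀ (by exact_mod_cast Nat.factorial_pos n)
    refine (mul_le_of_le_one_left (abs_nonneg _) h3).trans ?_
    simpa using h2

theorem continuousOn_coeff_tay (r : ℕ) {g : (Fin D → ℝ) → ℝ} {U : Set (Fin D → ℝ)} (hU : IsOpen U)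
    (hg : ContDiffOn ℝ ∞ g U) (m : Fin D →₀ ℕ) :
    ContinuousOn (fun x => coeff m (tay r g x)) U := by
  simp only [coeff_tay]
  refine continuousOn_finsetSum _ fun k _ => continuousOn_finsetSum _ fun σ _ => ?_
  split_ifs
  · unfold wco
    refine continuousOn_const.mul ?_
    have h1 : ContinuousOn (iteratedFDeriv ℝ k g) U :=
      (hg.continuousOn_iteratedFDerivWithin (by exact_mod_cast le_top) hU.uniqueDiffOn).congr
        fun x hx => (iteratedFDerivWithin_of_isOpen k hU hx).symm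
    exact (ContinuousMultilinearMap.apply ℝ (fun _ : Fin k => Fin D → ℝ) ℝ
      (fun i => Pi.single (σ i) 1)).continuous.comp_continuousOn h1
  · exact continuousOn_const

end Pool.Agent.P.MP_d483fb_an.Z.Jet
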