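import Pool.Agent.P.MP_d483fb_an.Z.Jet.One

/-!
Derivative bounds for compositions and explicit constants for jets of words.
-/

open Set Metric MvPolynomial Filter
open scoped Topology ContDiff Nat Manifold

noncomputable section

namespace Pool.Agent.P.MP_d483fb_an.Z.Jet

variable {D : ℕ} {M : Type} [MetricSpace M]

theorem abs_coeff_tay_le' {r : ℕ} {g : (Fin D → ℝ) → ℝ} {x : Fin D → ℝ} {C : ℝ}
    (h : ∀ k, 1 ≤ k → k < r → ‖iteratedFDeriv ℝ k g x‖ ≤ C) (hC : 0 ≤ C) {m : Fin D →₀ ℕ}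
    (hm : m ≠ 0) : |coeff m (tay r g x)| ≤ r * (D + 1) ^ r * C := by
  rw [coeff_tay]
  refine (Finset.abs_sum_le_sum_abs _ _).trans ?_
  have : ∀ k ∈ Finset.range r,
      |∑ σ : Fin k → Fin D, if wexp σ = m then wco g x σ else 0| ≤ (D + 1) ^ r * C := by
    intro k hk
    have hk' := Finset.mem_range.1 hk
    refine (Finset.abs_sum_le_sum_abs _ _).trans ?_
    refine (Finset.sum_le_card_nsmul _ _ C fun σ _ => ?_).trans ?_
    · split_ifs with e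
      · refine (abs_wco_le σ).trans (h k ?_ hk')
        have h1 := degree_wexp σ
        rw [e] at h1
        exact Nat.one_le_iff_ne_zero.2 fun e' => hm ((Finsupp.degree_eq_zero_iff m).1 (h1.trans e'))
      · simpa using hC
    · rw [Finset.card_univ, Fintype.card_fun, Fintype.card_fin, Fintype.card_fin, nsmul_eq_mul]
      refine mul_le_mul_of_nonneg_right ?_ hC
      push_cast
      exact (pow_le_pow_left₀ (by positivity) (by linarith) k).trans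
        (pow_le_pow_right₀ (by linarith [(Nat.cast_nonneg D : (0 : ℝ) ≤ D)]) hk'.le)
  refine (Finset.sum_le_card_nsmul _ _ _ this).trans (le_of_eq ?_)
  rw [Finset.card_range, nsmul_eq_mul, mul_assoc]

/-- `f` in two charts -/
def locv (ψ : M → OpenPartialHomeomorph M (Fin D → ℝ)) (f : M → M) (x y : M) :
    (Fin D → ℝ) → Fin D → ℝ := ψ y ∘ f ∘ (ψ x).symm

variable {ψ : M → OpenPartialHomeomorph M (Fin D → ℝ)} {f g : M → M}

theorem Smo.locv (hf : Smo ψ f) (x y : M) : ContDiffOn ℝ ∞ (locv ψ f x y) (dom ψ f x y) := hf.2 x y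

theorem Smo.norm_loc_le (hf : Smo ψ f) {x y : M} {u : Fin D → ℝ} (hu : u ∈ dom ψ f x y) (k : ℕ)
    (l : Fin D) :
    ‖iteratedFDeriv ℝ k (Jet.loc ψ f x y l) u‖ ≤ ‖iteratedFDeriv ℝ k (Jet.locv ψ f x y) u‖ := by
  have h := ContinuousLinearMap.norm_iteratedFDeriv_comp_left
    (ContinuousLinearMap.proj l : (Fin D → ℝ) →L[ℝ] ℝ)
    ((hf.locv x y).contDiffAt ((hf.isOpen_dom x y).mem_nhds hu)) (n := k) (by exact_mod_cast le_top)
  refine le_trans h (mul_le_of_le_one_left (norm_nonneg _) ?_)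
  exact ContinuousLinearMap.opNorm_le_bound _ zero_le_one fun v => by
    simpa using norm_le_pi_norm v l

theorem Smo.boundv (hf : Smo ψ f) {x y : M} {Q Q' : Set M} (hQ : IsCompact Q) (hQ' : IsCompact Q')
    (h1 : Q ⊆ (ψ x).source) (h2 : Q' ⊆ (ψ y).source) (k : ℕ) :
    ∃ C, ∀ z ∈ Q, f z ∈ Q' → ‖iteratedFDeriv ℝ k (Jet.locv ψ f x y) (ψ x z)‖ ≤ C := by
  have hU := hf.isOpen_dom x y
  have h3 : ContinuousOn (iteratedFDeriv ℝ k (Jet.locv ψ f x y)) (dom ψ f x y) :=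
    ((hf.locv x y).continuousOn_iteratedFDerivWithin (by exact_mod_cast le_top)
      hU.uniqueDiffOn).congr fun x hx => (iteratedFDerivWithin_of_isOpen k hU hx).symm
  have h4 : IsCompact (Q ∩ f ⁻¹' Q') := hQ.inter_right (hQ'.isClosed.preimage hf.1)
  obtain ⟨C, hC⟩ := h4.exists_bound_of_continuousOn
    (h3.comp ((ψ x).continuousOn.mono fun z hz => h1 hz.1) fun z hz => mem_dom (h1 hz.1) (h2 hz.2))
  exact ⟨C, fun z hz hz' => hC z ⟨hz, hz'⟩⟩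

theorem Smo.comp_bound (hf : Smo ψ f) (hg : Smo ψ g) {x y z w : M} (hx : w ∈ (ψ x).source)
    (hy : f w ∈ (ψ y).source) (hz : g (f w) ∈ (ψ z).source) {n : ℕ} {C Λ : ℝ}
    (hC : ∀ i ≤ n, ‖iteratedFDeriv ℝ i (Jet.locv ψ g y z) (ψ y (f w))‖ ≤ C)
    (hΛ : ∀ i, 1 ≤ i → i ≤ n → ‖iteratedFDeriv ℝ i (Jet.locv ψ f x y) (ψ x w)‖ ≤ Λ ^ i) :
    ‖iteratedFDeriv ℝ n (Jet.locv ψ (g ∘ f) x z) (ψ x w)‖ ≤ n ! * C * Λ ^ n := by
  have o1 := hf.isOpen_dom x y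
  have o2 := hg.isOpen_dom y z
  set s := dom ψ f x y ∩ Jet.locv ψ f x y ⁻¹' dom ψ g y z with hs
  have o3 : IsOpen s := (hf.locv x y).continuousOn.isOpen_inter_preimage o1 o2
  have e0 : Jet.locv ψ f x y (ψ x w) = ψ y (f w) := by simp [Jet.locv, (ψ x).left_inv hx]
  have m2 : ψ y (f w) ∈ dom ψ g y z := mem_dom hy hz
  have m3 : ψ x w ∈ s := ⟨mem_dom hx hy, by rw [mem_preimage, e0]; exact m2⟩
  have h := norm_iteratedFDerivWithin_comp_le (n := n) (hg.locv y z)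
    ((hf.locv x y).mono (inter_subset_left : s ⊆ _)) (by exact_mod_cast le_top) o2.uniqueDiffOn
    o3.uniqueDiffOn (fun _ hu => hu.2) m3 (C := C) (D := Λ)
    (fun i hi => by rw [e0, iteratedFDerivWithin_of_isOpen i o2 m2]; exact hC i hi)
    (fun i h1 hi => by rw [iteratedFDerivWithin_of_isOpen i o3 m3]; exact hΛ i h1 hi)
  rw [iteratedFDerivWithin_of_isOpen n o3 m3] at h
  have e : Jet.locv ψ (g ∘ f) x z =ᶠ[𝓝 (ψ x w)] Jet.locv ψ g y z ∘ Jet.locv ψ f x y := by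
    filter_upwards [o3.mem_nhds m3] with u hu
    have : f ((ψ x).symm u) ∈ (ψ y).source := hu.1.2
    simp [Jet.locv, (ψ y).left_inv this]
  rw [(e.iteratedFDeriv ℝ n).eq_of_nhds]
  exact h

variable [MeasurableSpace M] (A : Atl ψ)

namespace Atl

/-- the derivatives of order `1 ≤ i ≤ r` of `f` in the atlas are bounded by `Λ ^ i` -/
def Bd (r : ℕ) (f : M → M) (Λ : ℝ) : Prop :=
  ∀ p q, ∀ w ∈ A.Q (A.j p), f w ∈ A.Q (A.j q) → ∀ i, 1 ≤ i → i ≤ r →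
    ‖iteratedFDeriv ℝ i (locv ψ f (A.j p) (A.j q)) (ψ (A.j p) w)‖ ≤ Λ ^ i

variable {A} in
theorem Bd.mono {r : ℕ} {Λ Λ' : ℝ} (h : A.Bd r f Λ) (h0 : 0 ≤ Λ) (hΛ : Λ ≤ Λ') : A.Bd r f Λ' :=
  fun p q w h1 h2 i h3 h4 => (h p q w h1 h2 i h3 h4).trans (pow_le_pow_left₀ h0 hΛ i)

theorem boundv (hf : Smo ψ f) (r : ℕ) : ∃ C, 1 ≤ C ∧ ∀ p q, ∀ k ≤ r, ∀ z ∈ A.Q (A.j p),
    f z ∈ A.Q (A.j q) → ‖iteratedFDeriv ℝ k (locv ψ f (A.j p) (A.j q)) (ψ (A.j p) z)‖ ≤ C := by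
  have := A.fin.to_subtype
  have h : ∀ a : range A.j × range A.j × Fin (r + 1), ∃ C, ∀ z ∈ A.Q a.1, f z ∈ A.Q a.2.1 →
      ‖iteratedFDeriv ℝ a.2.2 (locv ψ f a.1 a.2.1) (ψ a.1 z)‖ ≤ C := by
    rintro ⟨⟨_, p, rfl⟩, ⟨_, q, rfl⟩, k⟩
    exact hf.boundv (A.cpt p) (A.cpt q) (A.sub p) (A.sub q) k
  choose C hC using h
  obtain ⟨B, hB⟩ := (finite_range C).bddAbove
  refine ⟨max B 1, le_max_right _ _, fun p q k hk z hz hz' => ?_⟩
  exact (hC (⟨_, p, rfl⟩, ⟨_, q, rfl⟩, ⟨k, by omega⟩) z hz hz').trans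
    ((hB (mem_range_self _)).trans (le_max_left _ _))

theorem exists_bd (hf : Smo ψ f) (r : ℕ) : ∃ Λ, 1 ≤ Λ ∧ A.Bd r f Λ := by
  obtain ⟨C, h1, h⟩ := A.boundv hf r
  exact ⟨C, h1, fun p q w hw hw' i hi hi' =>
    (h p q i hi' w hw hw').trans (le_self_pow₀ h1 (by omega))⟩

theorem bd_comp (hg : Smo ψ g) (r : ℕ) : ∃ E, 1 ≤ E ∧ ∀ (f : M → M) (Λ : ℝ), Smo ψ f → 0 ≤ Λ →
    A.Bd r f Λ → A.Bd r (g ∘ f) (E * Λ) := by
  obtain ⟨C, h1, h⟩ := A.boundv hg r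
  have hE : (1 : ℝ) ≤ r ! * C :=
    one_le_mul_of_one_le_of_one_le (by exact_mod_cast Nat.factorial_pos r) h1
  refine ⟨r ! * C, hE, fun f Λ hf h0 hb p q w hw hw' i hi hi' => ?_⟩
  refine (hf.comp_bound hg (A.sub p hw) (A.sub (f w) (A.mem_Q _)) (A.sub q hw') (C := C) (Λ := Λ)
    (fun k hk => h (f w) q k (hk.trans hi') _ (A.mem_Q _) hw')
    (fun k h2 hk => hb p (f w) w hw (A.mem_Q _) k h2 (hk.trans hi'))).trans ?_
  rw [mul_pow]
  refine mul_le_mul_of_nonneg_right (le_trans ?_ (le_self_pow₀ hE (by omega))) (by positivity)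
  exact mul_le_mul_of_nonneg_right (by exact_mod_cast Nat.factorial_le hi') (by linarith)

/-- Taylor estimate with explicit constants -/
theorem jet_expl (hf : Smo ψ f) {r : ℕ} (hr : 0 < r) {Λ L : ℝ} (hΛ : 1 ≤ Λ) (hb : A.Bd r f Λ)
    (hL : 1 ≤ L) (hl : ∀ z p, dist (f z) (f p) ≤ L * dist z p) {p q : M}
    (hpq : dist (f p) q < A.δ / 2) (l : Fin D) :
      (∀ m, m ≠ 0 → |coeff m (A.T0 r f p q l)| ≤ r * (D + 1) ^ r * Λ ^ r) ∧
      ∀ z, dist z p < A.δ / (2 * A.K ^ 2 * L) →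
        |A.c0 q (f z) l - eval (A.c0 p z) (A.T0 r f p q l)| ≤ Λ ^ r * ‖A.c0 p z‖ ^ r := by
  have hK := A.K_pos
  have hK1 := A.one_le
  have hδ := A.δ_pos
  have hb' : ∀ w ∈ A.Q (A.j p), f w ∈ A.Q (A.j q) → ∀ i, 1 ≤ i → i ≤ r →
      ‖iteratedFDeriv ℝ i (loc ψ f (A.j p) (A.j q) l) (ψ (A.j p) w)‖ ≤ Λ ^ r :=
    fun w hw hw' i h1 h2 => ((hf.norm_loc_le (mem_dom (A.sub p hw) (A.sub q hw')) i l).trans
      (hb p q w hw hw' i h1 h2)).trans (pow_le_pow_right₀ hΛ h2)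
  refine ⟨fun m hm => ?_, fun z hz => ?_⟩
  · rw [A.coeff_T0_of_ne r f p q l hm]
    exact abs_coeff_tay_le' (fun k h1 hk => hb' p (A.mem_Q p)
      (A.ball_sub q (hpq.trans (half_lt_self hδ))) k h1 hk.le) (by positivity) hm
  set η := A.δ / (2 * A.K ^ 2 * L) with hη
  have hη0 : 0 < η := by positivity
  have hη1 : L * (A.K * (A.K * η)) = A.δ / 2 := by rw [hη]; field_simp
  have a1 : η ≤ A.K * η := le_mul_of_one_le_left hη0.le hK1
  have a2 : A.K * η ≤ A.K * (A.K * η) := le_mul_of_one_le_left (by positivity) hK1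
  have a3 : A.K * (A.K * η) ≤ L * (A.K * (A.K * η)) := le_mul_of_one_le_left (by positivity) hL
  have hzδ : dist z p < A.δ := by linarith
  have hv : ‖A.c0 p z‖ < A.K * η := (A.norm_c0_le hzδ).trans_lt (mul_lt_mul_of_pos_left hz hK)
  have seg : ∀ t ∈ Icc (0 : ℝ) 1, ∃ w ∈ A.Q (A.j p), f w ∈ A.Q (A.j q) ∧
      ψ (A.j p) w = ψ (A.j p) p + t • A.c0 p z := by
    intro t ht
    have h1 : ‖t • A.c0 p z‖ < A.K * η := by
      rw [norm_smul, Real.norm_of_nonneg ht.1]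
      exact (mul_le_of_le_one_left (norm_nonneg _) ht.2).trans_lt hv
    obtain ⟨w, hw, e⟩ := A.onto p (t • A.c0 p z) (by linarith)
    refine ⟨w, hw, A.ball_sub q ?_, e⟩
    have h3 := (A.lip p w hw p (A.mem_Q p)).2
    rw [e, add_sub_cancel_left] at h3
    have h4 := h3.trans (mul_le_mul_of_nonneg_left h1.le hK.le)
    have h5 := (hl w p).trans (mul_le_mul_of_nonneg_left h4 (by linarith))
    exact mem_ball.2 (by linarith [dist_triangle (f w) (f p) q])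
  have key := abs_sub_tay_le (r := r) (g := loc ψ f (A.j p) (A.j q) l) (x := ψ (A.j p) p)
    (v := A.c0 p z) (C := Λ ^ r) (fun t ht => by
      obtain ⟨w, hw, hw', e⟩ := seg t ht
      rw [← e]
      exact (hf.loc _ _ l).contDiffAt
        ((hf.isOpen_dom _ _).mem_nhds (mem_dom (A.sub p hw) (A.sub q hw')))) (fun t ht => by
      obtain ⟨w, hw, hw', e⟩ := seg t ht
      rw [← e]
      exact hb' w hw hw' r hr le_rfl)
  have e1 : ψ (A.j p) p + A.c0 p z = ψ (A.j p) z := by simp [c0]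
  rw [e1, loc, (ψ _).left_inv (A.sub p (A.ball_sub p hzδ))] at key
  refine le_trans (le_of_eq ?_) key
  congr 1
  simp only [T0, map_sub, eval_C, c0, Pi.sub_apply]
  ring

end Atl

/-- exponential growth along words -/
theorem word_exp {Γ : Type} [Group Γ] (len : Γ → ℕ) (S : Set Γ) (hS : S.Finite)
    (h0 : ∀ γ, len γ = 0 → γ = 1)
    (hstep : ∀ γ n, len γ ≤ n + 1 → ∃ s ∈ S, ∃ γ', len γ' ≤ n ∧ γ = s * γ')
    (P : Γ → ℝ → Prop) (hmono : ∀ γ a b, 0 ≤ a → a ≤ b → P γ a → P γ b)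
    (h1 : ∃ a, 1 ≤ a ∧ P 1 a)
    (hs : ∀ s, ∃ E, 1 ≤ E ∧ ∀ γ a, 0 ≤ a → P γ a → P (s * γ) (E * a)) :
    ∃ L : ℝ, 0 ≤ L ∧ ∀ γ, P γ (Real.exp (L * (1 + len γ))) := by
  choose E hE hE' using hs
  obtain ⟨a, ha, hP⟩ := h1
  obtain ⟨B, hB⟩ := (hS.image E).bddAbove
  set F := max a B with hF
  have hF1 : 1 ≤ F := ha.trans (le_max_left _ _)
  have key : ∀ n γ, len γ ≤ n → P γ (F ^ (n + 1)) := by
    intro n
    induction n with
    | zero =>
      intro γ hγ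
      rw [h0 γ (by omega)]
      exact hmono _ _ _ (by linarith) (by simp [hF]) hP
    | succ n ih =>
      intro γ hγ
      obtain ⟨s, hs, γ', h2, rfl⟩ := hstep γ n hγ
      refine hmono _ _ _ (mul_nonneg (by linarith [hE s]) (by positivity)) ?_
        (hE' s γ' _ (by positivity) (ih γ' h2))
      rw [pow_succ' F (n + 1)]
      exact mul_le_mul_of_nonneg_right ((hB (mem_image_of_mem _ hs)).trans (le_max_right _ _))
        (by positivity)
  refine ⟨Real.log F, Real.log_nonneg hF1, fun γ => ?_⟩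
  have : Real.exp (Real.log F * (1 + len γ)) = F ^ (len γ + 1) := by
    rw [mul_comm, show (1 : ℝ) + len γ = ((len γ + 1 : ℕ) : ℝ) by push_cast; ring,
      Real.exp_nat_mul, Real.exp_log (by linarith)]
  rw [this]
  exact key _ γ le_rfl

section words
variable [CompactSpace M] {Γ : Type} [Group Γ] {α : Γ → M → M} (hα : ∀ γ, Smo ψ (α γ))
  (hmul : ∀ γ γ' p, α (γ * γ') p = α γ (α γ' p)) {len : Γ → ℕ} {S : Set Γ} (hS : S.Finite)
  (h0 : ∀ γ, len γ = 0 → γ = 1)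
  (hstep : ∀ γ n, len γ ≤ n + 1 → ∃ s ∈ S, ∃ γ', len γ' ≤ n ∧ γ = s * γ')
include A hα hmul hS h0 hstep

theorem Atl.lip_words : ∃ L : ℝ, 0 ≤ L ∧ ∀ γ z p,
    dist (α γ z) (α γ p) ≤ Real.exp (L * (1 + len γ)) * dist z p := by
  refine word_exp len S hS h0 hstep (fun γ a => ∀ z p, dist (α γ z) (α γ p) ≤ a * dist z p)
    (fun γ a b _ hab h z p => (h z p).trans (mul_le_mul_of_nonneg_right hab dist_nonneg))
    (A.lipschitz (hα 1)) fun s => ?_
  obtain ⟨E, hE, h⟩ := A.lipschitz (hα s)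
  refine ⟨E, hE, fun γ a _ h' z p => ?_⟩
  rw [hmul, hmul, mul_assoc]
  exact (h _ _).trans (mul_le_mul_of_nonneg_left (h' z p) (by linarith))

omit [CompactSpace M] in
theorem Atl.bd_words (r : ℕ) : ∃ L : ℝ, 0 ≤ L ∧ ∀ γ,
    A.Bd r (α γ) (Real.exp (L * (1 + len γ))) := by
  refine word_exp len S hS h0 hstep (fun γ a => A.Bd r (α γ) a)
    (fun γ a b h0 hab h => h.mono h0 hab) (A.exists_bd (hα 1) r) fun s => ?_
  obtain ⟨E, hE, h⟩ := A.bd_comp (hα s) r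
  refine ⟨E, hE, fun γ a ha h' => ?_⟩
  have e : α (s * γ) = α s ∘ α γ := funext (hmul s γ)
  rw [e]
  exact h _ a (hα γ) ha h'

end words

end Pool.Agent.P.MP_d483fb_an.Z.Jet
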